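import Pool.Agent.Helper58.AM.Sheet

/-! Sheet AM, row BLK: a short zero-sum block. -/

set_option autoImplicit false

open Finset

namespace Pool.Agent.Helper58.AM

theorem h10_rep {V M : Type} [DecidableEq V] [DecidableEq M] (f : V → M) (W : Finset V) :
    ∃ W' ⊆ W, (∀ a ∈ W', ∀ b ∈ W', f a = f b → a = b) ∧ ∀ w ∈ W, ∃ w' ∈ W', f w' = f w := by
  induction W using Finset.induction_on with
  | empty => exact ⟨∅, Subset.rfl, by simp, by simp⟩
  | insert a W ha ih =>
    obtain ⟨W', h1, h2, h3⟩ := ih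
    by_cases h : ∃ w' ∈ W', f w' = f a
    · refine ⟨W', h1.trans (subset_insert _ _), h2, fun w hw => ?_⟩
      rcases mem_insert.1 hw with hwa | hw2
      · rw [hwa]
        exact h
      · exact h3 w hw2
    · refine ⟨insert a W', insert_subset_insert _ h1, ?_, fun w hw => ?_⟩
      · intro x hx y hy hxy
        rcases mem_insert.1 hx with hxa | hx' <;> rcases mem_insert.1 hy with hya | hy'
        · rw [hxa, hya]
        · exact absurd ⟨y, hy', by rw [← hxy, hxa]⟩ h
        · exact absurd ⟨x, hx', by rw [hxy, hya]⟩ h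
        · exact h2 x hx' y hy' hxy
      · rcases mem_insert.1 hw with hwa | hw2
        · exact ⟨a, mem_insert_self _ _, by rw [hwa]⟩
        · obtain ⟨w', hw', e⟩ := h3 w hw2
          exact ⟨w', mem_insert_of_mem hw', e⟩

theorem h10_blk (hS : ST_SCH) (M V : Type) [AddCommGroup M] [DecidableEq M]
    [DecidableEq V] (f : V → M) (h : ℕ) : ∀ W : Finset V, (∀ w ∈ W, f w ≠ 0) →
    (∀ x : M, (W.filter (fun w => f w = x)).card ≤ h) →
    (∃ Z ⊆ W, Z.Nonempty ∧ Z.card ≤ h ∧ ∑ z ∈ Z, f z = 0) ∨
    ∃ S : Finset M, (0 : M) ∈ S ∧ W.card + 1 ≤ S.card ∧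
      ∀ s ∈ S, ∃ Z ⊆ W, Z.card ≤ h ∧ ∑ z ∈ Z, f z = s := by
  induction h with
  | zero =>
    intro W _ h2
    right
    have hW : W = ∅ := by
      by_contra hne
      obtain ⟨w, hw⟩ := nonempty_iff_ne_empty.2 hne
      have h3 := h2 (f w)
      have h4 : w ∈ W.filter (fun v => f v = f w) := mem_filter.2 ⟨hw, rfl⟩
      have h5 := card_pos.2 ⟨w, h4⟩
      omega
    refine ⟨{0}, mem_singleton_self _, by simp [hW], fun s hs => ⟨∅, empty_subset _, by simp, ?_⟩⟩
    rw [mem_singleton.1 hs]
    exact sum_empty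
  | succ h ih =>
    intro W h1 h2
    obtain ⟨W', hW', hinj, hrep⟩ := h10_rep f W
    have hfib : ∀ x : M, ((W \ W').filter (fun w => f w = x)).card ≤ h := by
      intro x
      by_cases hx : ∃ w ∈ W, f w = x
      · obtain ⟨w, hw, hwx⟩ := hx
        obtain ⟨w', hw', e⟩ := hrep w hw
        have h3 : (W \ W').filter (fun w => f w = x) ⊆ (W.filter (fun w => f w = x)).erase w' := by
          intro v hv
          rw [mem_filter, mem_sdiff] at hv
          rw [mem_erase, mem_filter]
          exact ⟨fun e' => hv.1.2 (e' ▸ hw'), hv.1.1, hv.2⟩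
        have h4 : w' ∈ W.filter (fun w => f w = x) := mem_filter.2 ⟨hW' hw', e.trans hwx⟩
        have h5 := card_le_card h3
        rw [card_erase_of_mem h4] at h5
        have h6 := h2 x
        omega
      · have h3 : (W \ W').filter (fun w => f w = x) = ∅ := by
          rw [filter_eq_empty_iff]
          intro v hv e
          exact hx ⟨v, (mem_sdiff.1 hv).1, e⟩
        rw [h3]
        simp
    rcases ih (W \ W') (fun w hw => h1 w (mem_sdiff.1 hw).1) hfib with
      ⟨Z, z1, z2, z3, z4⟩ | ⟨S, s1, s2, s3⟩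
    · exact Or.inl ⟨Z, z1.trans sdiff_subset, z2, by omega, z4⟩
    · -- the second set
      have hadd : ∀ (Z : Finset V) (w : V), Z ⊆ W \ W' → w ∈ W' → Z.card ≤ h →
          insert w Z ⊆ W ∧ (insert w Z).Nonempty ∧ (insert w Z).card ≤ h + 1 ∧
            ∑ z ∈ insert w Z, f z = ∑ z ∈ Z, f z + f w := by
        intro Z w hZ hw hc
        have hn : w ∉ Z := fun h' => (mem_sdiff.1 (hZ h')).2 hw
        refine ⟨insert_subset (hW' hw) (hZ.trans sdiff_subset), insert_nonempty _ _, ?_, ?_⟩
        · rw [card_insert_of_notMem hn]; omega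
        · rw [sum_insert hn, add_comm]
      by_cases hzero : ∀ p ∈ S, ∀ q ∈ insert 0 (W'.image f), p + q = 0 → q = 0
      · right
        have h3 := hS M S (insert 0 (W'.image f)) s1 (mem_insert_self _ _) hzero
        have h4 : (insert 0 (W'.image f)).card = W'.card + 1 := by
          rw [card_insert_of_notMem, card_image_of_injOn]
          · intro a ha b hb hab
            exact hinj a ha b hb hab
          · intro h0
            obtain ⟨w, hw, e⟩ := mem_image.1 h0
            exact h1 w (hW' hw) e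
        have h5 : (W \ W').card + W'.card = W.card := card_sdiff_add_card_eq_card hW'
        refine ⟨image₂ (fun x y => x + y) S (insert 0 (W'.image f)), ?_, by omega, ?_⟩
        · exact mem_image₂.2 ⟨0, s1, 0, mem_insert_self _ _, add_zero 0⟩
        · intro s hs
          obtain ⟨p, hp, q, hq, rfl⟩ := mem_image₂.1 hs
          obtain ⟨Z, z1, z2, z3⟩ := s3 p hp
          rcases mem_insert.1 hq with rfl | hq
          · exact ⟨Z, z1.trans sdiff_subset, by omega, by rw [z3, add_zero]⟩
          · obtain ⟨w, hw, rfl⟩ := mem_image.1 hq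
            obtain ⟨a1, -, a3, a4⟩ := hadd Z w z1 hw z2
            exact ⟨insert w Z, a1, a3, by rw [a4, z3]⟩
      · left
        push Not at hzero
        obtain ⟨p, hp, q, hq, hpq, hq0⟩ := hzero
        obtain ⟨Z, z1, z2, z3⟩ := s3 p hp
        rcases mem_insert.1 hq with rfl | hq
        · exact absurd rfl hq0
        · obtain ⟨w, hw, rfl⟩ := mem_image.1 hq
          obtain ⟨a1, a2, a3, a4⟩ := hadd Z w z1 hw z2
          exact ⟨insert w Z, a1, a2, a3, by rw [a4, z3, hpq]⟩

theorem st_BLK (hS : ST_SCH) : ST_BLK := by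
  intro M V _ _ _ _ f h W h1 h2 h3
  rcases h10_blk hS M V f h W h1 h2 with h4 | ⟨S, -, h5, -⟩
  · exact h4
  · have h6 : S.card ≤ Fintype.card M := card_le_univ S
    omega

end Pool.Agent.Helper58.AM
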